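import Pool.Agent.W622.ETG.Final
import Pool.Agent.W622.ETG.Bri

/-! # MP_d26ff6_al: the elementary type conjecture and extension of symbols

A finite quaternionic structure is of elementary type if and only if every symbol defined on a
subgroup extends to the whole group, and it is enough that the product symbols extend. -/

set_option autoImplicit false

namespace Pool.Agent.Results.MP_d26ff6_al.SymbolExtension

open Pool.Agent.H315R3.ETC

/-- `χ` is a symbol on the subgroup `W` of `G`: on `W × G` it is additive in both variables, and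
`χ(w,b) = 0` for all `w ∈ W`, `b ∈ G` with `q(w,b) = 0`.  Only the values on `W × G` matter. -/
def IsSymbol (S : QData) (W : Subgroup S.G) (χ : S.G → S.G → ZMod 2) : Prop :=
  (∀ a ∈ W, ∀ b ∈ W, ∀ c, χ (a * b) c = χ a c + χ b c) ∧
  (∀ a ∈ W, ∀ b c, χ a (b * c) = χ a b + χ a c) ∧
  (∀ a ∈ W, ∀ b, S.q a b = S.zero → χ a b = 0)

/-- symbols extend: every symbol on a subgroup `W` of `G` agrees on `W × G` with a symbol on `G` -/
def SymbolsExtend (S : QData) : Prop :=
  ∀ (W : Subgroup S.G) (χ : S.G → S.G → ZMod 2), IsSymbol S W χ →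
    ∃ χ' : S.G → S.G → ZMod 2, IsSymbol S ⊤ χ' ∧ ∀ a ∈ W, ∀ b, χ' a b = χ a b

/-- product symbols extend: for homomorphisms `l, f : G → Z/2` such that `χ(w,b) = l(w) f(b)` is a
symbol on the subgroup `W` there is a symbol on `G` agreeing with `χ` on `W × G` -/
def ProductSymbolsExtend (S : QData) : Prop :=
  ∀ (W : Subgroup S.G) (l f : S.G → ZMod 2), (∀ a b, l (a * b) = l a + l b) →
    (∀ a b, f (a * b) = f a + f b) → IsSymbol S W (fun w b => l w * f b) →
    ∃ χ' : S.G → S.G → ZMod 2, IsSymbol S ⊤ χ' ∧ ∀ w ∈ W, ∀ b, χ' w b = l w * f b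

theorem result (S : QData) (hS : IsQuat S) (hfin : Finite S.G) :
    (Elem S ↔ SymbolsExtend S) ∧ (Elem S ↔ ProductSymbolsExtend S) := by
  obtain ⟨hcore, hPL, hout, hconv⟩ := Pool.Agent.W622.ETG.all_parts
  have h12 : Elem S → SymbolsExtend S := fun h => hconv S hS h
  have h23 : SymbolsExtend S → ProductSymbolsExtend S := fun h W l f _ _ hχ => h W _ hχ
  have h31 : ProductSymbolsExtend S → Elem S := by
    intro h
    have hMP : Pool.Agent.W622.ETG.MP S := by
      intro W l f hl hf h0
      refine h W l f hl hf ⟨?_, ?_, h0⟩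
      · intro a _ b _ c
        show l (a * b) * f c = l a * f c + l b * f c
        rw [hl, add_mul]
      · intro a _ b c
        show l a * f (b * c) = l a * f b + l a * f c
        rw [hf, mul_add]
    obtain ⟨V, i1, i2, i3, e, A, hA, hH, hiso⟩ :=
      Pool.Agent.W622.ETG.bri_prod hPL S hS hfin hMP
    exact Elem.iso _ _ (hout V e A (hcore V e A hA hH)) hiso
  exact ⟨⟨h12, fun h => h31 (h23 h)⟩, ⟨fun h => h23 (h12 h), h31⟩⟩

end Pool.Agent.Results.MP_d26ff6_al.SymbolExtension
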